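import Pool.Agent.helper78.WB.SpecIII

/-!
# Siegel's lemma for ternary forms (rows wb:II.SG and wb:IIa.SG)
-/

set_option autoImplicit false

namespace Pool.Agent.WB

open MvPolynomial

attribute [local instance] Matrix.seminormedAddCommGroup

theorem SG_mon_bound (N D : ℕ) (ζ : V3) (hζ : ∀ i, |ζ i| ≤ (N : ℤ)) (μ : Fin 3 →₀ ℕ)
    (hμ : μ.degree = D) : |∏ i, ζ i ^ μ i| ≤ ((N ^ D : ℕ) : ℤ) := by
  rw [Finset.abs_prod]
  have h1 : ∏ i, |ζ i ^ μ i| ≤ ∏ i, (N : ℤ) ^ μ i := by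
    apply Finset.prod_le_prod
    · intro i _; exact abs_nonneg _
    · intro i _
      rw [abs_pow]
      exact pow_le_pow_left₀ (abs_nonneg _) (hζ i) _
  refine h1.trans (le_of_eq ?_)
  rw [Finset.prod_pow_eq_pow_sum, ← Finsupp.degree_eq_sum, hμ]
  push_cast
  rfl

theorem SG_core (h1 : DIM3_stmt) (N D : ℕ) (S : Finset V3) (hN : 1 ≤ N)
    (hS : ∀ ζ ∈ S, ∀ i, |ζ i| ≤ (N : ℤ)) (hc : 2 * S.card ≤ s3 D) :
    ∃ G : MvPolynomial (Fin 3) ℤ, G ≠ 0 ∧ G.IsHomogeneous D ∧
      (∀ μ, |coeff μ G| ≤ ((s3 D * N ^ D : ℕ) : ℤ)) ∧ ∀ ζ ∈ S, eval ζ G = 0 := by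
  classical
  have hs3 : 0 < s3 D := by
    have : 2 ≤ (D + 1) * (D + 2) := by nlinarith
    simp only [s3]
    omega
  have hfin : Finite {μ : Fin 3 →₀ ℕ // μ.degree = D} := by
    apply Nat.finite_of_card_ne_zero
    rw [h1.1]
    omega
  have : Fintype {μ : Fin 3 →₀ ℕ // μ.degree = D} := Fintype.ofFinite _
  have hcard : Fintype.card {μ : Fin 3 →₀ ℕ // μ.degree = D} = s3 D := by
    rw [← Nat.card_eq_fintype_card, h1.1]
  rcases S.eq_empty_or_nonempty with rfl | hne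
  · refine ⟨X 0 ^ D, pow_ne_zero _ (X_ne_zero 0), ?_, ?_, by simp⟩
    · have := (isHomogeneous_X ℤ (0 : Fin 3)).pow D
      simpa using this
    · intro μ
      have hpos : (1 : ℤ) ≤ ((s3 D * N ^ D : ℕ) : ℤ) := by
        have : 0 < s3 D * N ^ D := Nat.mul_pos hs3 (Nat.pow_pos hN)
        exact_mod_cast this
      rw [coeff_X_pow]
      split_ifs
      · simpa using hpos
      · simpa using le_trans zero_le_one hpos
  · -- the matrix
    let A : Matrix {x // x ∈ S} {μ : Fin 3 →₀ ℕ // μ.degree = D} ℤ :=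
      fun ζ μ => ∏ i, ζ.1 i ^ μ.1 i
    have hm : 0 < Fintype.card {x // x ∈ S} := by
      rw [Fintype.card_coe]
      exact hne.card_pos
    have hmn : Fintype.card {x // x ∈ S} < Fintype.card {μ : Fin 3 →₀ ℕ // μ.degree = D} := by
      rw [hcard, Fintype.card_coe]
      have := hne.card_pos
      omega
    obtain ⟨t, ht0, hAt, htn⟩ := Int.Matrix.exists_ne_zero_int_vec_norm_le A hmn hm
    have hA : ‖A‖ ≤ ((N ^ D : ℕ) : ℝ) := by
      rw [Matrix.norm_le_iff (by positivity)]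
      intro ζ μ
      have h2 := SG_mon_bound N D ζ.1 (hS ζ.1 ζ.2) μ.1 μ.2
      rw [Int.norm_eq_abs]
      exact_mod_cast h2
    have hND : (1 : ℝ) ≤ ((N ^ D : ℕ) : ℝ) := by
      have : 1 ≤ N ^ D := Nat.one_le_pow _ _ hN
      exact_mod_cast this
    have hbase : (1 : ℝ) ≤ ((Fintype.card {μ : Fin 3 →₀ ℕ // μ.degree = D} : ℕ) : ℝ) * max 1 ‖A‖ := by
      rw [hcard]
      have h3 : (1 : ℝ) ≤ (s3 D : ℝ) := by exact_mod_cast hs3
      have h4 : (1 : ℝ) ≤ max 1 ‖A‖ := le_max_left _ _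
      nlinarith
    have hexp : ((Fintype.card {x // x ∈ S} : ℕ) : ℝ) /
        (((Fintype.card {μ : Fin 3 →₀ ℕ // μ.degree = D} : ℕ) : ℝ) -
          ((Fintype.card {x // x ∈ S} : ℕ) : ℝ)) ≤ 1 := by
      have h5 : ((Fintype.card {x // x ∈ S} : ℕ) : ℝ) <
          ((Fintype.card {μ : Fin 3 →₀ ℕ // μ.degree = D} : ℕ) : ℝ) := by exact_mod_cast hmn
      rw [div_le_one (by linarith)]
      rw [hcard, Fintype.card_coe]
      have h6 : (2 : ℝ) * (S.card : ℝ) ≤ (s3 D : ℝ) := by exact_mod_cast hc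
      linarith
    have htn2 : ‖t‖ ≤ ((s3 D * N ^ D : ℕ) : ℝ) := by
      refine htn.trans ?_
      refine (Real.rpow_le_rpow_of_exponent_le hbase hexp).trans ?_
      rw [Real.rpow_one, hcard]
      push_cast
      push_cast at hA hND
      exact mul_le_mul_of_nonneg_left (max_le hND hA) (by positivity)
    have htμ : ∀ μ, |t μ| ≤ ((s3 D * N ^ D : ℕ) : ℤ) := by
      intro μ
      have h7 : ‖t μ‖ ≤ ‖t‖ := norm_le_pi_norm t μ
      have h8 := h7.trans htn2
      rw [Int.norm_eq_abs] at h8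
      exact_mod_cast h8
    let G : MvPolynomial (Fin 3) ℤ := ∑ μ, monomial μ.1 (t μ)
    have hcoeff : ∀ μ : {μ : Fin 3 →₀ ℕ // μ.degree = D}, coeff μ.1 G = t μ := by
      intro μ
      simp only [G, coeff_sum, coeff_monomial]
      rw [Finset.sum_eq_single μ]
      · simp
      · intro ν _ hν
        rw [if_neg]
        intro h
        exact hν (Subtype.ext h)
      · intro h
        exact absurd (Finset.mem_univ μ) h
    have hcoeff0 : ∀ ν : Fin 3 →₀ ℕ, ν.degree ≠ D → coeff ν G = 0 := by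
      intro ν hν
      simp only [G, coeff_sum, coeff_monomial]
      refine Finset.sum_eq_zero fun μ _ => ?_
      rw [if_neg]
      intro h
      apply hν
      rw [← h]
      exact μ.2
    refine ⟨G, ?_, ?_, ?_, ?_⟩
    · intro h
      apply ht0
      funext μ
      rw [← hcoeff μ, h, coeff_zero]
      rfl
    · refine IsHomogeneous.sum _ _ _ fun μ _ => ?_
      exact isHomogeneous_monomial _ μ.2
    · intro ν
      by_cases hν : ν.degree = D
      · rw [hcoeff ⟨ν, hν⟩]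
        exact htμ _
      · rw [hcoeff0 ν hν, abs_zero]
        positivity
    · intro ζ hζ
      have h9 := congrFun hAt ⟨ζ, hζ⟩
      simp only [Matrix.mulVec, dotProduct, Pi.zero_apply] at h9
      simp only [G, map_sum, eval_monomial]
      rw [← h9]
      refine Finset.sum_congr rfl fun μ _ => ?_
      rw [mul_comm]
      congr 1
      rw [Finsupp.prod_fintype _ _ (by simp)]

end Pool.Agent.WB
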