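import Pool.Agent.helper79.WB.SpecII
import Pool.Agent.helper25.WB.SGCore

/-!
# Row wb:II.SG
-/

set_option autoImplicit false

namespace Pool.Agent.WB

open MvPolynomial

theorem SG (h1 : DIM3_stmt) : SG_stmt := by
  intro N D S hN hS hc
  obtain ⟨G, hG0, hG1, hG2, hG3⟩ := SG_core h1 N D S hN hS hc
  exact ⟨G, ⟨hG0, hG1, hG2⟩, hG3⟩

end Pool.Agent.WB
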